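import Pool.Agent.H65.OCM.Big
import Pool.Agent.H98.OCV.Stmts

/-!
# Theorem OCV, row TIM
-/

set_option autoImplicit false

namespace Pool.Coup

open Finset Real
open Pool.Agent.H49.Ent Pool.Agent.H32.Dense Pool.STK Pool.KAF
open Pool.OCV

open Classical in
/-- The number of bad scales as a sum. -/
theorem ncard_eq {Ω : Type} (B : ℕ → Ω → Prop) (a b : ℕ) (ω : Ω) :
    (Set.ncard {i : ℕ | a ≤ i ∧ i < b ∧ B i ω} : ℝ) =
      ∑ i ∈ Finset.Ico a b, (if B i ω then (1 : ℝ) else 0) := by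
  have h : {i : ℕ | a ≤ i ∧ i < b ∧ B i ω} =
      (((Finset.Ico a b).filter fun i => B i ω : Finset ℕ) : Set ℕ) := by
    ext i
    simp only [Set.mem_ofPred_eq, Finset.coe_filter, Finset.mem_Ico]
    tauto
  rw [h, Set.ncard_coe_finset, ← Finset.sum_filter, Finset.sum_const, nsmul_eq_mul, mul_one]

/-- Markov for sums. -/
theorem mk_sum {Ω : Type} [Fintype Ω] {p : Ω → ℝ} (hp : ∀ ω, 0 ≤ p ω) {g : ℕ → Ω → ℝ}
    (hg : ∀ i ω, 0 ≤ g i ω) {a b : ℕ} {t E : ℝ} (ht : 0 < t)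
    (hE : ∑ i ∈ Finset.Ico a b, ∑ ω, p ω * g i ω ≤ E) :
    Pr p {ω | t < ∑ i ∈ Finset.Ico a b, g i ω} ≤ E / t := by
  have h1 := Pool.OC.QNT.markov' hp (f := fun ω => ∑ i ∈ Finset.Ico a b, g i ω)
    (fun ω => Finset.sum_nonneg fun i _ => hg i ω) t
  have h2 : ∑ ω, p ω * ∑ i ∈ Finset.Ico a b, g i ω = ∑ i ∈ Finset.Ico a b, ∑ ω, p ω * g i ω := by
    rw [Finset.sum_comm]
    refine Finset.sum_congr rfl fun ω _ => ?_
    rw [Finset.mul_sum]
  rw [h2] at h1
  rw [le_div_iff₀ ht, mul_comm]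
  exact h1.trans hE

theorem Pr_ind {Ω : Type} [Fintype Ω] (p : Ω → ℝ) (P : Ω → Prop) [DecidablePred P] :
    ∑ ω, p ω * (if P ω then (1 : ℝ) else 0) = Pr p {ω | P ω} := by
  rw [Pool.KAF.Pr_eq]
  refine Finset.sum_congr rfl fun ω _ => ?_
  by_cases h : P ω
  · rw [if_pos h, if_pos (show ω ∈ {ω | P ω} from h), mul_one]
  · rw [if_neg h, if_neg (show ω ∉ {ω | P ω} from h), mul_zero]

/-- **TIM.** -/
theorem tim_thm (c : ℕ) : TIMStmt c := by
  classical
  intro δ hδ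
  obtain ⟨R, hR⟩ := exists_nat_gt (12 / δ)
  have hR2 : 6 / (2 : ℝ) ^ R ≤ δ / 2 := by
    have h1 : (R : ℝ) < 2 ^ R := by exact_mod_cast Nat.lt_two_pow_self
    have h2 : 12 / δ < 2 ^ R := hR.trans h1
    rw [div_lt_iff₀ hδ] at h2
    rw [div_le_iff₀ (by positivity)]
    linarith only [h2]
  refine ⟨R, fun κ₂ π₁ hκ hκ4 hπ => ?_⟩
  set ι : ℝ := δ * κ₂ * π₁ / (64 * (R + 1)) with hι
  have hι0 : 0 < ι := by positivity
  obtain ⟨X₀, hX₀⟩ := exists_nat_gt (64 / (δ * π₁ * κ₂) + 4 * R + 8 / κ₂ + 8)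
  refine ⟨ι, X₀, hι0, fun d A hOK hX h1 => ?_⟩
  have hp := hOK.law
  have hp0 := hp.nonneg
  set θ : d.Om → ℝ := fun ω => d.th (d.T ω) with hθd
  have hθ : ∀ ω, 0 ≤ θ ω ∧ θ ω < 1 := fun ω => hOK.hth _
  have hdg : ∀ i, d.Ti i = dg θ i := fun i => rfl
  have hF : (1 - ι) * d.X * Real.log 2 ≤ CH d.P (dg θ d.X) d.L := h1.2
  have hXR : 64 / (δ * π₁ * κ₂) + 4 * R + 8 / κ₂ + 8 < (d.X : ℝ) :=
    hX₀.trans_le (by exact_mod_cast hX)
  have hq1 : 0 < 64 / (δ * π₁ * κ₂) := by positivity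
  have hq2 : 0 < 8 / κ₂ := by positivity
  have hR0 : (0 : ℝ) ≤ R := Nat.cast_nonneg _
  have hX1 : 8 ≤ κ₂ * d.X := by
    have : 8 / κ₂ ≤ d.X := by linarith only [hκ, hκ4, hXR, hq1]
    rwa [div_le_iff₀ hκ, mul_comm] at this
  set n : ℕ := ⌊κ₂ * d.X⌋₊ with hn
  have hn1 : (n : ℝ) ≤ κ₂ * d.X := Nat.floor_le (by positivity)
  have hn2 : κ₂ * d.X < n + 1 := Nat.lt_floor_add_one _
  have hn3 : κ₂ * d.X / 2 ≤ n := by linarith only [hκ, hκ4, hX1, hn2]
  have hn0 : (0 : ℝ) < n := by linarith only [hκ, hκ4, hX1, hn2]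
  have h4n : 4 * n ≤ d.X := by
    have : (4 * n : ℝ) ≤ d.X := by
      have h2 : κ₂ * d.X ≤ 1 / 4 * d.X := mul_le_mul_of_nonneg_right hκ4 (Nat.cast_nonneg _)
      linarith only [hn1, h2]
    exact_mod_cast this
  have h4R : 4 * R ≤ d.X := by
    have : (4 * R : ℝ) ≤ d.X := by linarith only [hκ, hκ4, hXR, hq1, hq2]
    exact_mod_cast this
  have hιX : (R + 1) * (ι * d.X) ≤ δ * π₁ * n / 32 := by
    have h2 : (R + 1) * (ι * d.X) = δ * π₁ * (κ₂ * d.X / 2) / 32 := by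
      rw [hι]
      field_simp
      ring
    rw [h2]
    have h3 : δ * π₁ * (κ₂ * d.X / 2) ≤ δ * π₁ * n := mul_le_mul_of_nonneg_left hn3 (by positivity)
    linarith only [h3]
  have hιX0 : 0 ≤ ι * d.X := by positivity
  have hιX1 : ι * d.X ≤ δ * π₁ * n / 32 := by
    have : 0 ≤ R * (ι * d.X) := by positivity
    linarith only [hιX, this]
  have hab : n ≤ 2 * n := by omega
  refine ⟨?_, ?_, ?_⟩
  · -- coupling
    have h2 := cpl_sum hp hθ hF hab (show 2 * n ≤ d.X by omega)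
    set g : ℕ → d.Om → ℝ := fun i ω =>
      if cp d.P (dg θ (i + 1)) (fun v => (d.L v, dg θ i v)) ω < 1 / 3 then (1 : ℝ) else 0 with hg
    have h3 : Pr d.P {ω | δ * n < ∑ i ∈ Finset.Ico n (2 * n), g i ω} ≤
        8 * (ι * d.X) / (δ * n) := by
      refine mk_sum hp0 (fun i ω => ?_) (by positivity) ?_
      · simp only [hg]
        split_ifs <;> norm_num
      · refine le_trans (Finset.sum_le_sum fun i _ => le_of_eq ?_) h2
        exact Pr_ind d.P (fun ω => cp d.P (dg θ (i + 1)) (fun v => (d.L v, dg θ i v)) ω < 1 / 3)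
    refine le_trans (Pr_mono hp0 fun ω _ hω => ?_) (h3.trans ?_)
    · have h4 := ncard_eq (fun i ω =>
        Pr (d.pk i ω) {v | d.Ti (i + 1) v = d.Ti (i + 1) ω} < 1 / 3) n (2 * n) ω
      have h5 : δ * n < (Set.ncard {i : ℕ | n ≤ i ∧ i < 2 * n ∧
        Pr (d.pk i ω) {v | d.Ti (i + 1) v = d.Ti (i + 1) ω} < 1 / 3} : ℝ) := hω
      show δ * n < ∑ i ∈ Finset.Ico n (2 * n), g i ω
      rw [h4] at h5
      refine h5.trans_le (Finset.sum_le_sum fun i _ => le_of_eq ?_)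
      have h6 : Pr (d.pk i ω) {v | d.Ti (i + 1) v = d.Ti (i + 1) ω} =
          cp d.P (dg θ (i + 1)) (fun v => (d.L v, dg θ i v)) ω :=
        (cp_eq_Pr d.P (dg θ (i + 1)) (fun v => (d.L v, dg θ i v)) ω).symm
      simp only [hg, h6]
    · rw [div_le_iff₀ (by positivity)]
      have : π₁ * (δ * n) = δ * π₁ * n := by ring
      rw [this]
      have h7 : 0 ≤ δ * π₁ * n := by positivity
      linarith only [hιX0, hιX1]
  · -- near partners
    have h2 := bad_sum (R := R) hp hθ hF hab (show 2 * n + R ≤ d.X by omega)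
    set Bad : ℕ → Set d.Om := fun i =>
      {v | 2 / ((2 ^ R : ℕ) : ℝ) < cp d.P (dg θ (i + R)) (fun v => (d.L v, dg θ i v)) v} with hBad
    set g : ℕ → d.Om → ℝ := fun i ω => Pr (d.pk i ω) (Bad i) with hg
    have h3 : Pr d.P {ω | δ / 2 * n < ∑ i ∈ Finset.Ico n (2 * n), g i ω} ≤
        6 * (R * (ι * d.X)) / (δ / 2 * n) := by
      refine mk_sum hp0 (fun i ω => ?_) (by positivity) ?_
      · exact Pr_nonneg (fun v => cond_nonneg hp0 _ _ v) _
      · refine le_trans (Finset.sum_le_sum fun i _ => le_of_eq ?_) h2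
        exact Pool.KX.AVG.Pr_cond_sum hp0 (fun v => (d.L v, d.Ti i v)) (Bad i)
    refine le_trans (Pr_mono hp0 fun ω _ hω => ?_) (h3.trans ?_)
    · have h5 : δ * n < ∑ i ∈ Finset.Ico n (2 * n),
        Pr (d.pk i ω) {v | |d.th (d.T v) - d.th (d.T ω)| < (2 : ℝ) ^ (-((i : ℤ) + R))} := hω
      show δ / 2 * n < ∑ i ∈ Finset.Ico n (2 * n), g i ω
      have h6 : ∑ i ∈ Finset.Ico n (2 * n),
          Pr (d.pk i ω) {v | |d.th (d.T v) - d.th (d.T ω)| < (2 : ℝ) ^ (-((i : ℤ) + R))} ≤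
          ∑ i ∈ Finset.Ico n (2 * n), (δ / 2 + g i ω) := by
        refine Finset.sum_le_sum fun i _ => ?_
        have h7 := near (θ := θ) (L := d.L) hp i R ω
        have h8 : Pr (d.pk i ω) {v | |d.th (d.T v) - d.th (d.T ω)| < (2 : ℝ) ^ (-((i : ℤ) + R))} ≤
            6 / 2 ^ R + g i ω := h7
        linarith only [hR2, h8]
      rw [Finset.sum_add_distrib, Finset.sum_const, Nat.card_Ico, nsmul_eq_mul] at h6
      have h7 : ((2 * n - n : ℕ) : ℝ) = n := by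
        congr 1
        omega
      rw [h7] at h6
      linarith only [h5, h6]
    · rw [div_le_iff₀ (by positivity)]
      have h8 : R * (ι * d.X) ≤ (R + 1) * (ι * d.X) := by linarith only [hιX0]
      have h9 : π₁ * (δ / 2 * n) = δ * π₁ * n / 2 := by ring
      rw [h9]
      have h7 : 0 ≤ δ * π₁ * n := by positivity
      linarith only [hιX, hιX0, hιX1]
  · -- coarse partners
    have h2 := Pool.OC.TIM.fano (d := toD d.P θ d.L d.X) hp 0 n
    have h3 : Pr (dbl d.P (fun v => (d.L v, dg θ 0 v)))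
        {w | |θ w.2 - θ w.1| < (2 : ℝ) ^ (-((0 + n : ℕ) : ℤ))} * (n * Real.log 2) ≤
        4 * Real.log 2 + (Pool.OC.TIM.df (toD d.P θ d.L d.X) (0 + n) -
          Pool.OC.TIM.df (toD d.P θ d.L d.X) 0) := h2
    have h4 := Pool.OC.TIM.df_nonneg (toD_ok hp hθ d.L d.X) 0
    have h5 := df_le hp hθ hF (show 0 + n ≤ d.X by omega)
    have hl2 : 0 < Real.log 2 := Real.log_pos (by norm_num)
    set G : d.Om → ℝ := fun ω => Pr (d.pl ω)
      {v | |d.th (d.T v) - d.th (d.T ω)| < (2 : ℝ) ^ (-(κ₂ * d.X))} with hG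
    have h6 : ∑ ω, d.P ω * G ω ≤ Pr (dbl d.P (fun v => (d.L v, dg θ 0 v)))
        {w | |θ w.2 - θ w.1| < (2 : ℝ) ^ (-((0 + n : ℕ) : ℤ))} := by
      rw [Pool.OC.Pr_dblW]
      unfold Ex
      refine Finset.sum_le_sum fun ω _ => mul_le_mul_of_nonneg_left ?_ (hp0 ω)
      have h7 : cond d.P (fun v => (d.L v, dg θ 0 v)) (d.L ω, dg θ 0 ω) = d.pl ω := by
        have h8 : ∀ v, dg θ 0 v = 0 := by
          intro v
          show ⌊(2 : ℝ) ^ 0 * θ v⌋ = 0
          rw [pow_zero, one_mul, Int.floor_eq_zero_iff]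
          exact hθ v
        have h9 : ∀ v, ((d.L v, dg θ 0 v) = (d.L ω, dg θ 0 ω) ↔ d.L v = d.L ω) := by
          intro v
          simp only [h8, Prod.mk.injEq, and_true]
        have hl : law d.P (fun v => (d.L v, dg θ 0 v)) (d.L ω, dg θ 0 ω) =
            law d.P d.L (d.L ω) := by
          unfold law
          refine Finset.sum_congr rfl fun v _ => ?_
          by_cases h : d.L v = d.L ω
          · rw [if_pos h, if_pos ((h9 v).2 h)]
          · rw [if_neg h, if_neg fun h' => h ((h9 v).1 h')]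
        funext v
        show cond d.P (fun v => (d.L v, dg θ 0 v)) (d.L ω, dg θ 0 ω) v =
          cond d.P d.L (d.L ω) v
        unfold Pool.Agent.H49.Ent.cond
        rw [hl]
        by_cases h : d.L v = d.L ω
        · rw [if_pos h, if_pos ((h9 v).2 h)]
        · rw [if_neg h, if_neg fun h' => h ((h9 v).1 h')]
      show G ω ≤ Pr (cond d.P (fun v => (d.L v, dg θ 0 v)) (d.L ω, dg θ 0 ω)) _
      rw [h7]
      refine Pr_mono (fun v => cond_nonneg hp0 _ _ v) fun v _ hv => ?_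
      have h10 : |d.th (d.T v) - d.th (d.T ω)| < (2 : ℝ) ^ (-(κ₂ * d.X)) := hv
      show |θ v - θ ω| < (2 : ℝ) ^ (-((0 + n : ℕ) : ℤ))
      refine h10.trans_le ?_
      have h11 : (2 : ℝ) ^ (-((0 + n : ℕ) : ℤ)) = (2 : ℝ) ^ (-(n : ℝ)) := by
        rw [zero_add, ← Real.rpow_intCast]
        push_cast
        rfl
      rw [h11]
      exact Real.rpow_le_rpow_of_exponent_le (by norm_num) (by linarith only [hn1])
    have h7 := Pool.OC.QNT.markov' hp0 (f := G)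
      (fun ω => Pr_nonneg (fun v => cond_nonneg hp0 _ _ v) _) δ
    have h8 : (∑ ω, d.P ω * G ω) * n ≤ 4 + ι * d.X := by
      have h9 : ((∑ ω, d.P ω * G ω) * n) * Real.log 2 ≤ (4 + ι * d.X) * Real.log 2 := by
        have h10 := mul_le_mul_of_nonneg_right h6 (show 0 ≤ (n : ℝ) * Real.log 2 by positivity)
        linarith only [h3, h4, h5, h10]
      exact le_of_mul_le_mul_right h9 hl2
    have h9 : 32 ≤ δ * π₁ * n := by
      have h10 : 64 / (δ * π₁ * κ₂) ≤ d.X := by linarith only [hκ, hκ4, hXR, hq2]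
      rw [div_le_iff₀ (by positivity)] at h10
      have h11 : δ * π₁ * (κ₂ * d.X / 2) ≤ δ * π₁ * n :=
        mul_le_mul_of_nonneg_left hn3 (by positivity)
      linarith only [h10, h11]
    show Pr d.P {ω | δ < G ω} ≤ π₁
    have h10 : (δ * Pr d.P {ω | δ < G ω}) * n ≤ (∑ ω, d.P ω * G ω) * n :=
      mul_le_mul_of_nonneg_right h7 hn0.le
    have h11 : Pr d.P {ω | δ < G ω} * (δ * n) ≤ π₁ * (δ * n) := by
      have : π₁ * (δ * n) = δ * π₁ * n := by ring
      rw [this]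
      linarith only [hκ, hκ4, hιX1, h8, h9, h10]
    exact le_of_mul_le_mul_right h11 (by positivity)

end Pool.Coup
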