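import Pool.Agent.H65.OCM.Tcv
import Pool.Agent.H70.K2.AVG

/-!
# Theorem OCV, row TIM, pure part: near partners are rare at most scales

The number of digits `R` depends on the wanted probability only.
-/

set_option autoImplicit false

namespace Pool.Coup

open Finset Real
open Pool.Agent.H49.Ent Pool.Agent.H32.Dense Pool.STK Pool.KAF

variable {Ω Λ S T : Type} [Fintype Ω]

/-- Few samples have a value of large conditional probability. -/
theorem big {p : Ω → ℝ} (hp : IsLaw p) (A : Ω → S) (B : Ω → T) (F : T → Finset S) {M : ℕ}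
    (hM0 : 0 < M) (hF : ∀ ω, 0 < p ω → A ω ∈ F (B ω)) (hM : ∀ t, (F t).card ≤ M) :
    Pr p {ω | 2 / (M : ℝ) < cp p A B ω} ≤ 6 * (Real.log M - CH p A B) := by
  classical
  have hp0 := hp.nonneg
  have hM' : (0 : ℝ) < M := by exact_mod_cast hM0
  have h1 := Ex_inv hp A B F M hF hM
  have h2 : Real.log M - CH p A B = Ex p (fun ω => -Real.log ((cp p A B ω)⁻¹ / M)) := by
    rw [CH_eq_cp hp0, ← Ex_const hp.sum_one (Real.log M), ← Ex_sub]
    unfold Ex
    refine Finset.sum_congr rfl fun ω _ => ?_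
    rcases (hp0 ω).eq_or_lt with h0 | h0
    · rw [← h0, zero_mul, zero_mul]
    · have h3 := cp_pos hp0 A B h0
      show p ω * (Real.log M - -Real.log (cp p A B ω)) = p ω * -Real.log ((cp p A B ω)⁻¹ / M)
      rw [Real.log_div (inv_pos.2 h3).ne' hM'.ne', Real.log_inv]
      ring
  rw [h2]
  have h3 : Pr p {ω | 2 / (M : ℝ) < cp p A B ω} =
      Ex p (fun ω => if 2 / (M : ℝ) < cp p A B ω then 1 else 0) := by
    rw [Pool.KAF.Pr_eq]
    unfold Ex
    refine Finset.sum_congr rfl fun ω _ => ?_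
    show _ = p ω * (if 2 / (M : ℝ) < cp p A B ω then 1 else 0)
    by_cases h : 2 / (M : ℝ) < cp p A B ω
    · rw [if_pos (show ω ∈ {ω | 2 / (M : ℝ) < cp p A B ω} from h), if_pos h, mul_one]
    · rw [if_neg (show ω ∉ {ω | 2 / (M : ℝ) < cp p A B ω} from h), if_neg h, mul_zero]
  rw [h3]
  have h4 : Ex p (fun ω => (if 2 / (M : ℝ) < cp p A B ω then (1 : ℝ) else 0)) ≤
      Ex p (fun ω => 6 * (-Real.log ((cp p A B ω)⁻¹ / M) + ((cp p A B ω)⁻¹ / M - 1))) := by
    refine Ex_mono hp0 fun ω hω => ?_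
    have h5 := cp_pos hp0 A B hω
    have h6 : 0 < (cp p A B ω)⁻¹ / M := by positivity
    by_cases h : 2 / (M : ℝ) < cp p A B ω
    · rw [if_pos h]
      set v : ℝ := (cp p A B ω)⁻¹ / M with hv
      have h7 : v ≤ 1 / 2 := by
        rw [div_lt_iff₀ hM'] at h
        rw [hv, div_le_iff₀ hM', inv_le_comm₀ h5 (by positivity)]
        have h8 : (1 / 2 * (M : ℝ))⁻¹ = 2 / M := by
          field_simp
        rw [h8, div_le_iff₀ hM']
        exact h.le
      have h8 : Real.log v = Real.log (2 * v) - Real.log 2 := by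
        rw [Real.log_mul (by norm_num) h6.ne']
        ring
      have h9 : Real.log (2 * v) ≤ 2 * v - 1 := Real.log_le_sub_one_of_pos (by positivity)
      have h10 := Real.log_two_gt_d9
      linarith
    · rw [if_neg h]
      have h8 := Real.log_le_sub_one_of_pos h6
      linarith
  refine h4.trans ?_
  rw [Ex_smul, Ex_add]
  have h5 : Ex p (fun ω => (cp p A B ω)⁻¹ / M - 1) ≤ 0 := by
    have : Ex p (fun ω => (cp p A B ω)⁻¹ / M - 1) =
        (1 / (M : ℝ)) * Ex p (fun ω => (cp p A B ω)⁻¹) - 1 := by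
      rw [Ex_sub, Ex_const hp.sum_one, ← Ex_smul]
      congr 1
      unfold Ex
      refine Finset.sum_congr rfl fun ω _ => ?_
      ring
    rw [this]
    have h6 : (1 / (M : ℝ)) * Ex p (fun ω => (cp p A B ω)⁻¹) ≤ (1 / (M : ℝ)) * M :=
      mul_le_mul_of_nonneg_left h1 (by positivity)
    have h7 : (1 / (M : ℝ)) * M = 1 := by field_simp
    linarith
  linarith

/-- The conditional probability as a probability. -/
theorem cp_eq_Pr (p : Ω → ℝ) (A : Ω → S) (B : Ω → T) (ω : Ω) :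
    cp p A B ω = Pr (cond p B (B ω)) {v | A v = A ω} := by
  classical
  have h : Pr (cond p B (B ω)) {v | A v = A ω} = law (cond p B (B ω)) A (A ω) := by
    rw [Pool.KAF.Pr_eq]
    unfold law
    refine Finset.sum_congr rfl fun v _ => ?_
    by_cases h : A v = A ω
    · rw [if_pos h, if_pos (show v ∈ {v | A v = A ω} from h)]
    · rw [if_neg h, if_neg (show v ∉ {v | A v = A ω} from h)]
  rw [h, law_cond]
  rfl

section

variable {p : Ω → ℝ} {θ : Ω → ℝ} {L : Ω → Λ} {X : ℕ} {ι : ℝ}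

/-- Near samples. -/
theorem near (hp : IsLaw p) (i R : ℕ) (ω : Ω) :
    Pr (cond p (fun v => (L v, dg θ i v)) (L ω, dg θ i ω))
      {v | |θ v - θ ω| < (2 : ℝ) ^ (-((i : ℤ) + R))} ≤
    6 / 2 ^ R + Pr (cond p (fun v => (L v, dg θ i v)) (L ω, dg θ i ω))
      {v | 2 / ((2 ^ R : ℕ) : ℝ) < cp p (dg θ (i + R)) (fun v => (L v, dg θ i v)) v} := by
  classical
  have hp0 := hp.nonneg
  set q : Ω → ℝ := cond p (fun v => (L v, dg θ i v)) (L ω, dg θ i ω) with hq
  have hq0 : ∀ v, 0 ≤ q v := fun v => cond_nonneg hp0 _ _ v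
  set Bad : Set Ω := {v | 2 / ((2 ^ R : ℕ) : ℝ) < cp p (dg θ (i + R)) (fun v => (L v, dg θ i v)) v}
    with hBad
  set a : ℤ := dg θ (i + R) ω with ha
  -- the three cells
  have hone : ∀ x : ℤ, Pr q {v | dg θ (i + R) v = x ∧ v ∉ Bad} ≤ 2 / 2 ^ R := by
    intro x
    by_cases hex : ∃ v, 0 < q v ∧ dg θ (i + R) v = x ∧ v ∉ Bad
    · obtain ⟨v₀, hv₀, hx, hv₁⟩ := hex
      have h1 := (cond_pos_iff hp0 _ _ v₀).1 hv₀
      have h2 : cp p (dg θ (i + R)) (fun v => (L v, dg θ i v)) v₀ ≤ 2 / ((2 ^ R : ℕ) : ℝ) :=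
        not_lt.1 hv₁
      rw [cp_eq_Pr] at h2
      have h3 : (L v₀, dg θ i v₀) = (L ω, dg θ i ω) := h1.2
      rw [h3] at h2
      push_cast at h2
      refine le_trans (Pr_mono hq0 fun v _ hv => ?_) h2
      show dg θ (i + R) v = dg θ (i + R) v₀
      rw [hv.1, hx]
    · have h1 : Pr q {v | dg θ (i + R) v = x ∧ v ∉ Bad} ≤ 0 := by
        rw [Pool.KAF.Pr_eq]
        refine Finset.sum_nonpos fun v _ => ?_
        split_ifs with h
        · by_contra h2
          exact hex ⟨v, not_le.1 h2, h⟩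
        · exact le_rfl
      exact h1.trans (by positivity)
  have hsub : Pr q {v | |θ v - θ ω| < (2 : ℝ) ^ (-((i : ℤ) + R))} ≤
      Pr q {v | dg θ (i + R) v = a - 1 ∧ v ∉ Bad} + Pr q {v | dg θ (i + R) v = a ∧ v ∉ Bad} +
        Pr q {v | dg θ (i + R) v = a + 1 ∧ v ∉ Bad} + Pr q Bad := by
    rw [Pool.KAF.Pr_eq, Pool.KAF.Pr_eq, Pool.KAF.Pr_eq, Pool.KAF.Pr_eq, Pool.KAF.Pr_eq,
      ← Finset.sum_add_distrib, ← Finset.sum_add_distrib, ← Finset.sum_add_distrib]
    refine Finset.sum_le_sum fun v _ => ?_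
    have hv := hq0 v
    by_cases h : v ∈ {v | |θ v - θ ω| < (2 : ℝ) ^ (-((i : ℤ) + R))}
    · rw [if_pos h]
      by_cases hB : v ∈ Bad
      · rw [if_pos hB]
        have e1 : (0 : ℝ) ≤ if v ∈ {v | dg θ (i + R) v = a - 1 ∧ v ∉ Bad} then q v else 0 := by
          split_ifs <;> linarith
        have e2 : (0 : ℝ) ≤ if v ∈ {v | dg θ (i + R) v = a ∧ v ∉ Bad} then q v else 0 := by
          split_ifs <;> linarith
        have e3 : (0 : ℝ) ≤ if v ∈ {v | dg θ (i + R) v = a + 1 ∧ v ∉ Bad} then q v else 0 := by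
          split_ifs <;> linarith
        linarith
      · rw [if_neg hB]
        have h' : |θ v - θ ω| < (2 : ℝ) ^ (-((i : ℤ) + R)) := h
        have h2 : |(2 : ℝ) ^ (i + R) * θ v - (2 : ℝ) ^ (i + R) * θ ω| < 1 := by
          rw [← mul_sub, abs_mul, abs_of_pos (by positivity : (0 : ℝ) < 2 ^ (i + R))]
          have h3 : (2 : ℝ) ^ (-((i : ℤ) + R)) = ((2 : ℝ) ^ (i + R))⁻¹ := by
            rw [zpow_neg]
            norm_cast
          rw [h3] at h'
          have h4 := mul_lt_mul_of_pos_left h' (by positivity : (0 : ℝ) < 2 ^ (i + R))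
          rwa [mul_inv_cancel₀ (by positivity)] at h4
        have h5 : dg θ (i + R) v = a - 1 ∨ dg θ (i + R) v = a ∨ dg θ (i + R) v = a + 1 := by
          rw [abs_lt] at h2
          have e1 : ⌊(2 : ℝ) ^ (i + R) * θ v⌋ ≤ ⌊(2 : ℝ) ^ (i + R) * θ ω⌋ + 1 := by
            rw [← Int.floor_add_one]
            exact Int.floor_le_floor (by linarith)
          have e2 : ⌊(2 : ℝ) ^ (i + R) * θ ω⌋ ≤ ⌊(2 : ℝ) ^ (i + R) * θ v⌋ + 1 := by
            rw [← Int.floor_add_one]
            exact Int.floor_le_floor (by linarith)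
          have e3 : dg θ (i + R) v = ⌊(2 : ℝ) ^ (i + R) * θ v⌋ := rfl
          have e4 : a = ⌊(2 : ℝ) ^ (i + R) * θ ω⌋ := rfl
          rw [e3, e4]
          omega
        have n1 : a - 1 ≠ a := by omega
        have n2 : a - 1 ≠ a + 1 := by omega
        have n3 : a ≠ a + 1 := by omega
        rcases h5 with h5 | h5 | h5
        · rw [if_pos (show v ∈ {v | dg θ (i + R) v = a - 1 ∧ v ∉ Bad} from ⟨h5, hB⟩)]
          have e2 : (0 : ℝ) ≤ if v ∈ {v | dg θ (i + R) v = a ∧ v ∉ Bad} then q v else 0 := by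
            split_ifs <;> linarith
          have e3 : (0 : ℝ) ≤ if v ∈ {v | dg θ (i + R) v = a + 1 ∧ v ∉ Bad} then q v else 0 := by
            split_ifs <;> linarith
          linarith
        · rw [if_pos (show v ∈ {v | dg θ (i + R) v = a ∧ v ∉ Bad} from ⟨h5, hB⟩)]
          have e1 : (0 : ℝ) ≤ if v ∈ {v | dg θ (i + R) v = a - 1 ∧ v ∉ Bad} then q v else 0 := by
            split_ifs <;> linarith
          have e3 : (0 : ℝ) ≤ if v ∈ {v | dg θ (i + R) v = a + 1 ∧ v ∉ Bad} then q v else 0 := by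
            split_ifs <;> linarith
          linarith
        · rw [if_pos (show v ∈ {v | dg θ (i + R) v = a + 1 ∧ v ∉ Bad} from ⟨h5, hB⟩)]
          have e1 : (0 : ℝ) ≤ if v ∈ {v | dg θ (i + R) v = a - 1 ∧ v ∉ Bad} then q v else 0 := by
            split_ifs <;> linarith
          have e2 : (0 : ℝ) ≤ if v ∈ {v | dg θ (i + R) v = a ∧ v ∉ Bad} then q v else 0 := by
            split_ifs <;> linarith
          linarith
    · rw [if_neg h]
      have e1 : (0 : ℝ) ≤ if v ∈ {v | dg θ (i + R) v = a - 1 ∧ v ∉ Bad} then q v else 0 := by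
        split_ifs <;> linarith
      have e2 : (0 : ℝ) ≤ if v ∈ {v | dg θ (i + R) v = a ∧ v ∉ Bad} then q v else 0 := by
        split_ifs <;> linarith
      have e3 : (0 : ℝ) ≤ if v ∈ {v | dg θ (i + R) v = a + 1 ∧ v ∉ Bad} then q v else 0 := by
        split_ifs <;> linarith
      have e4 : (0 : ℝ) ≤ if v ∈ Bad then q v else 0 := by
        split_ifs <;> linarith
      linarith
  have h1 := hone (a - 1)
  have h2 := hone a
  have h3 := hone (a + 1)
  have h4 : (6 : ℝ) / 2 ^ R = 2 / 2 ^ R + 2 / 2 ^ R + 2 / 2 ^ R := by ring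
  linarith

/-- The mean of the bad part. -/
theorem bad_sum (hp : IsLaw p) (hθ : ∀ ω, 0 ≤ θ ω ∧ θ ω < 1)
    (hX : (1 - ι) * X * Real.log 2 ≤ CH p (dg θ X) L) {a b R : ℕ} (hab : a ≤ b)
    (hb : b + R ≤ X) :
    ∑ i ∈ Finset.Ico a b, Pr p
      {v | 2 / ((2 ^ R : ℕ) : ℝ) < cp p (dg θ (i + R)) (fun v => (L v, dg θ i v)) v} ≤
        6 * (R * (ι * X)) := by
  have h1 : ∀ i ∈ Finset.Ico a b, Pr p
      {v | 2 / ((2 ^ R : ℕ) : ℝ) < cp p (dg θ (i + R)) (fun v => (L v, dg θ i v)) v} ≤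
        6 * (Pool.OC.TIM.df (toD p θ L X) (i + R) - Pool.OC.TIM.df (toD p θ L X) i) := by
    intro i _
    have h2 := big hp (dg θ (i + R)) (fun v => (L v, dg θ i v))
      (fun z => Finset.Ico (2 ^ R * z.2) (2 ^ R * (z.2 + 1))) (M := 2 ^ R) (by positivity)
      (fun ω _ => Pool.OC.TIM.floor_mem (θ ω) i R)
      (fun z => by rw [Pool.OC.TIM.card_blk])
    have h3 : CH p (dg θ (i + R)) (fun v => (L v, dg θ i v)) =
        Pool.OC.TIM.D (toD p θ L X) (i + R) - Pool.OC.TIM.D (toD p θ L X) i :=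
      Pool.OC.TIM.CH_pair (d := toD p θ L X) hp.nonneg i R
    rw [h3] at h2
    refine h2.trans (le_of_eq ?_)
    unfold Pool.OC.TIM.df
    push_cast
    rw [Real.log_pow]
    ring
  refine (Finset.sum_le_sum h1).trans ?_
  rw [← Finset.mul_sum]
  have h2 := Pool.OC.TIM.tele2 (Pool.OC.TIM.df (toD p θ L X)) (F := ι * X * Real.log 2) hab
    (Pool.OC.TIM.df_nonneg (toD_ok hp hθ L X)) R (fun i hi => df_le hp hθ hX (by omega))
  have h6 := iota_nonneg hp hθ hX
  have h7 := Real.log_two_lt_d9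
  have h8 : (R : ℝ) * (ι * X * Real.log 2) ≤ R * (ι * X) := by
    refine mul_le_mul_of_nonneg_left ?_ (Nat.cast_nonneg _)
    have : ι * X * Real.log 2 ≤ ι * X * 1 := mul_le_mul_of_nonneg_left (by linarith) h6
    linarith
  linarith

end

end Pool.Coup
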