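import Pool.Agent.H48.OC.Step
import Pool.Agent.H54.KVA.Defs2

/-!
# Theorem OCM, row TCV', pure part: the laws of the partners at consecutive scales

`θ` is a number in `[0, 1)`, `b` a label (the line); `dg θ i` is the number of the dyadic cell of
`θ` of length `2 ^ (-i)`. If the digits of `θ` are full given `b` then for most scales `i` the
conditional probability of the cell of the sample at the scale `i + 1` given that at the scale `i`
is at least `1 / 3`, so the conditional law at the scale `i + 1` is at most `3` times that at the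
scale `i`.
-/

set_option autoImplicit false

namespace Pool.Coup

open Finset Real
open Pool.Agent.H49.Ent Pool.Agent.H32.Dense Pool.STK Pool.KAF

variable {Ω S T U : Type} [Fintype Ω]

/-- The mean of the inverse conditional probability. -/
theorem Ex_inv {p : Ω → ℝ} (hp : IsLaw p) (A : Ω → S) (B : Ω → T) (F : T → Finset S) (M : ℕ)
    (hF : ∀ ω, 0 < p ω → A ω ∈ F (B ω)) (hM : ∀ t, (F t).card ≤ M) :
    Ex p (fun ω => (cp p A B ω)⁻¹) ≤ M := by
  classical
  have hp0 := hp.nonneg
  have h1 : Ex p (fun ω => (cp p A B ω)⁻¹) = ∑ z ∈ univ.image (fun ω => (A ω, B ω)),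
      law p (fun ω => (A ω, B ω)) z * (law p B z.2 / law p (fun ω => (A ω, B ω)) z) := by
    rw [← sum_mul_eq_sum_image p (fun ω => (A ω, B ω))
      (fun z => law p B z.2 / law p (fun ω => (A ω, B ω)) z)]
    unfold Ex cp
    refine Finset.sum_congr rfl fun ω _ => ?_
    show p ω * (law p (fun v => (A v, B v)) (A ω, B ω) / law p B (B ω))⁻¹ = _
    rw [inv_div]
  have h2 : ∀ z ∈ univ.image (fun ω => (A ω, B ω)),
      law p (fun ω => (A ω, B ω)) z * (law p B z.2 / law p (fun ω => (A ω, B ω)) z) ≤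
        if z.1 ∈ F z.2 then law p B z.2 else 0 := by
    intro z _
    by_cases h0 : law p (fun ω => (A ω, B ω)) z = 0
    · rw [h0, zero_mul]
      split_ifs
      · exact law_nonneg hp0 _ _
      · exact le_rfl
    · rw [mul_div_cancel₀ _ h0]
      rw [if_pos]
      by_contra hz
      apply h0
      unfold law
      refine Finset.sum_eq_zero fun ω _ => ?_
      split_ifs with h
      · by_contra h3
        have h4 : 0 < p ω := lt_of_le_of_ne (hp0 ω) (Ne.symm h3)
        have h5 := hF ω h4
        rw [← h] at hz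
        exact hz h5
      · rfl
  rw [h1]
  refine (Finset.sum_le_sum h2).trans ?_
  have h3 : univ.image (fun ω => (A ω, B ω)) ⊆ univ.image A ×ˢ univ.image B := by
    intro z hz
    obtain ⟨ω, _, rfl⟩ := Finset.mem_image.1 hz
    exact Finset.mem_product.2 ⟨Finset.mem_image_of_mem _ (Finset.mem_univ _),
      Finset.mem_image_of_mem _ (Finset.mem_univ _)⟩
  refine (Finset.sum_le_sum_of_subset_of_nonneg h3 fun z _ _ => ?_).trans ?_
  · split_ifs
    · exact law_nonneg hp0 _ _
    · exact le_rfl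
  rw [Finset.sum_product_right]
  have h4 : ∀ b ∈ univ.image B, ∑ a ∈ univ.image A, (if a ∈ F b then law p B b else 0) ≤
      law p B b * M := by
    intro b _
    rw [← Finset.sum_filter, Finset.sum_const, nsmul_eq_mul, mul_comm]
    refine mul_le_mul_of_nonneg_left ?_ (law_nonneg hp0 _ _)
    have : ((univ.image A).filter fun a => a ∈ F b).card ≤ (F b).card :=
      Finset.card_le_card fun a ha => (Finset.mem_filter.1 ha).2
    exact_mod_cast this.trans (hM b)
  refine (Finset.sum_le_sum h4).trans ?_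
  rw [← Finset.sum_mul, sum_law, hp.sum_one, one_mul]

theorem cp_pos {p : Ω → ℝ} (hp : ∀ ω, 0 ≤ p ω) (A : Ω → S) (B : Ω → T) {ω : Ω} (hω : 0 < p ω) :
    0 < cp p A B ω := div_pos (law_pos hp _ hω) (law_pos hp _ hω)

/-- Entropy as the mean of `-log cp`. -/
theorem CH_eq_cp {p : Ω → ℝ} (hp : ∀ ω, 0 ≤ p ω) (A : Ω → S) (B : Ω → T) :
    CH p A B = Ex p (fun ω => -Real.log (cp p A B ω)) := by
  unfold CH H Ex cp
  rw [← Finset.sum_neg_distrib, ← Finset.sum_neg_distrib, ← Finset.sum_sub_distrib]
  refine Finset.sum_congr rfl fun ω _ => ?_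
  rcases (hp ω).eq_or_lt with h0 | h0
  · rw [← h0]
    ring
  · show _ = p ω * -Real.log (law p (fun v => (A v, B v)) (A ω, B ω) / law p B (B ω))
    have h1 := law_pos hp (fun v => (A v, B v)) h0
    rw [Real.log_div h1.ne' (law_pos hp _ h0).ne']
    ring

/-- `v - 1 - log v` is at least `1 / 11` for `v ≥ 3 / 2`. -/
theorem log_ineq {v : ℝ} (hv : 3 / 2 ≤ v) : 1 / 11 ≤ v - 1 - Real.log v := by
  have h1 : Real.log v = Real.log (3 / 2) + Real.log (v / (3 / 2)) := by
    rw [← Real.log_mul (by norm_num) (by positivity)]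
    congr 1
    field_simp
  have h2 : Real.log (v / (3 / 2)) ≤ v / (3 / 2) - 1 :=
    Real.log_le_sub_one_of_pos (by positivity)
  have h3 : Real.log (3 / 2) ≤ 0.4084 := by
    have h4 : Real.log (3 / 2) = Real.log 3 - Real.log 2 := by
      rw [Real.log_div (by norm_num) (by norm_num)]
    have h5 : (8 : ℝ) * Real.log (3 / 2) = Real.log ((3 / 2) ^ 8) := by
      rw [Real.log_pow]
      norm_num
    have h6 : Real.log ((3 / 2 : ℝ) ^ 8) ≤ Real.log (2 ^ 4 * (1.60182)) := by
      refine Real.log_le_log (by norm_num) (by norm_num)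
    have h7 : Real.log (2 ^ 4 * (1.60182 : ℝ)) = 4 * Real.log 2 + Real.log 1.60182 := by
      rw [Real.log_mul (by norm_num) (by norm_num), Real.log_pow]
      norm_num
    have h8 : Real.log (1.60182 : ℝ) = Real.log 2 + Real.log (0.80091) := by
      rw [← Real.log_mul (by norm_num) (by norm_num)]
      norm_num
    have h9 : Real.log (0.80091 : ℝ) ≤ 0.80091 - 1 := Real.log_le_sub_one_of_pos (by norm_num)
    have h10 := Real.log_two_lt_d9
    have h11 : Real.log (3 / 2 : ℝ) = (Real.log ((3 / 2) ^ 8)) / 8 := by linarith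
    rw [h11]
    have : Real.log ((3 / 2 : ℝ) ^ 8) ≤ 5 * 0.6931471808 + (0.80091 - 1) := by linarith
    linarith
  have h12 : v / (3 / 2) = 2 / 3 * v := by ring
  rw [h12] at h1 h2
  rw [h1]
  linarith

/-- For two values: if the entropy is nearly `log 2`, the conditional probability of the own value
is at least `1 / 3` for most samples. -/
theorem bit {p : Ω → ℝ} (hp : IsLaw p) (A : Ω → S) (B : Ω → T) (F : T → Finset S)
    (hF : ∀ ω, 0 < p ω → A ω ∈ F (B ω)) (hM : ∀ t, (F t).card ≤ 2) :
    Pr p {ω | cp p A B ω < 1 / 3} ≤ 11 * (Real.log 2 - CH p A B) := by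
  classical
  have hp0 := hp.nonneg
  have h1 := Ex_inv hp A B F 2 hF hM
  have h2 : Real.log 2 - CH p A B = Ex p (fun ω => -Real.log ((cp p A B ω)⁻¹ / 2)) := by
    rw [CH_eq_cp hp0, ← Ex_const hp.sum_one (Real.log 2), ← Ex_sub]
    unfold Ex
    refine Finset.sum_congr rfl fun ω _ => ?_
    rcases (hp0 ω).eq_or_lt with h0 | h0
    · rw [← h0, zero_mul, zero_mul]
    · have h3 := cp_pos hp0 A B h0
      show p ω * (Real.log 2 - -Real.log (cp p A B ω)) = p ω * -Real.log ((cp p A B ω)⁻¹ / 2)
      rw [Real.log_div (inv_pos.2 h3).ne' (by norm_num), Real.log_inv]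
      ring
  rw [h2]
  have h3 : Pr p {ω | cp p A B ω < 1 / 3} = Ex p (fun ω => if cp p A B ω < 1 / 3 then 1 else 0) := by
    rw [Pool.KAF.Pr_eq]
    unfold Ex
    refine Finset.sum_congr rfl fun ω _ => ?_
    show _ = p ω * (if cp p A B ω < 1 / 3 then 1 else 0)
    by_cases h : cp p A B ω < 1 / 3
    · rw [if_pos (show ω ∈ {ω | cp p A B ω < 1 / 3} from h), if_pos h, mul_one]
    · rw [if_neg (show ω ∉ {ω | cp p A B ω < 1 / 3} from h), if_neg h, mul_zero]
  rw [h3]
  have h4 : Ex p (fun ω => (if cp p A B ω < 1 / 3 then (1 : ℝ) else 0)) ≤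
      Ex p (fun ω => 11 * (-Real.log ((cp p A B ω)⁻¹ / 2) + ((cp p A B ω)⁻¹ / 2 - 1))) := by
    refine Ex_mono hp0 fun ω hω => ?_
    have h5 := cp_pos hp0 A B hω
    have h6 : 0 < (cp p A B ω)⁻¹ / 2 := by positivity
    by_cases h : cp p A B ω < 1 / 3
    · rw [if_pos h]
      have h7 : 3 / 2 ≤ (cp p A B ω)⁻¹ / 2 := by
        have : (3 : ℝ) ≤ (cp p A B ω)⁻¹ := by
          rw [le_inv_comm₀ (by norm_num) h5]
          norm_num at h ⊢
          linarith
        linarith
      have h8 := log_ineq h7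
      linarith
    · rw [if_neg h]
      have h8 := Real.log_le_sub_one_of_pos h6
      linarith
  refine h4.trans ?_
  rw [Ex_smul, Ex_add]
  have h5 : Ex p (fun ω => (cp p A B ω)⁻¹ / 2 - 1) ≤ 0 := by
    have : Ex p (fun ω => (cp p A B ω)⁻¹ / 2 - 1) = (1 / 2) * Ex p (fun ω => (cp p A B ω)⁻¹) - 1 := by
      rw [Ex_sub, Ex_const hp.sum_one, ← Ex_smul]
      congr 1
      unfold Ex
      refine Finset.sum_congr rfl fun ω _ => ?_
      ring
    rw [this]
    push_cast at h1
    linarith
  linarith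

/-- The conditional law given more digits. -/
theorem cond_le {p : Ω → ℝ} (hp : ∀ ω, 0 ≤ p ω) (A : Ω → S) (B : Ω → T) (X : Ω → U) {ω : Ω}
    (hω : 0 < p ω) {c : ℝ} (hc : 0 < c) (h : c ≤ cp p A B ω) (x : U) :
    law (Pool.Agent.H49.Ent.cond p (fun v => (A v, B v)) (A ω, B ω)) X x ≤
      c⁻¹ * law (Pool.Agent.H49.Ent.cond p B (B ω)) X x := by
  classical
  rw [law_cond, law_cond]
  have h1 := law_pos hp (fun v => (A v, B v)) hω
  have h2 := law_pos hp B hω
  have h3 : law p (fun v => (X v, (A v, B v))) (x, (A ω, B ω)) ≤ law p (fun v => (X v, B v)) (x, B ω) := by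
    unfold law
    refine Finset.sum_le_sum fun v _ => ?_
    by_cases h4 : (X v, (A v, B v)) = (x, (A ω, B ω))
    · have h4' := h4
      simp only [Prod.mk.injEq] at h4'
      rw [if_pos h4, if_pos (show (X v, B v) = (x, B ω) from Prod.ext h4'.1 h4'.2.2)]
    · rw [if_neg h4]
      split_ifs
      · exact hp v
      · exact le_rfl
  unfold cp at h
  rw [le_div_iff₀ h2] at h
  have h4 : 0 ≤ law p (fun v => (X v, B v)) (x, B ω) := law_nonneg hp _ _
  rw [div_le_iff₀ h1]
  have h5 : c⁻¹ * (law p (fun v => (X v, B v)) (x, B ω) / law p B (B ω)) *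
      law p (fun v => (A v, B v)) (A ω, B ω) =
      law p (fun v => (X v, B v)) (x, B ω) *
        (law p (fun v => (A v, B v)) (A ω, B ω) / (c * law p B (B ω))) := by
    field_simp
  rw [h5]
  refine h3.trans ?_
  refine le_mul_of_one_le_right h4 ?_
  rw [one_le_div (by positivity)]
  exact h

end Pool.Coup
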