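import Pool.Agent.H65.OCM.Coup
import Pool.Agent.H14.OC.Tim
import Pool.Agent.H20.OC.Tools

/-!
# Theorem OCM, row TCV', pure part: most scales are good for most samples

`θ` is a number in `[0, 1)` with nearly full digits given the label `L`.
-/

set_option autoImplicit false

namespace Pool.Coup

open Finset Real
open Pool.Agent.H49.Ent Pool.Agent.H32.Dense Pool.STK Pool.KAF

variable {Ω Λ S T : Type} [Fintype Ω]

/-- The first `i` digits. -/
noncomputable def dg (θ : Ω → ℝ) (i : ℕ) (ω : Ω) : ℤ := ⌊(2 : ℝ) ^ i * θ ω⌋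

/-- The data of theorem OC with the times only. -/
noncomputable def toD (p : Ω → ℝ) (θ : Ω → ℝ) (L : Ω → Λ) (X : ℕ) : Pool.OC.Dat where
  Om := Ω
  Lam := Λ
  Tau := Ω
  P := p
  L := L
  T := id
  y := fun _ => 0
  om := fun _ => 0
  be := fun _ => 0
  N := fun _ => 0
  th := θ
  S := fun _ => 0
  X := X

theorem toD_ok {p : Ω → ℝ} (hp : IsLaw p) {θ : Ω → ℝ} (hθ : ∀ ω, 0 ≤ θ ω ∧ θ ω < 1)
    (L : Ω → Λ) (X : ℕ) : (toD p θ L X).OK 0 where
  law := hp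
  hy := fun ω _ => by
    show |((0 : ℤ) : ℝ) / 2 ^ X| ≤ 2 ^ 0
    simp
  hom := fun ω _ => by
    show |((0 : ℤ) : ℝ) / 2 ^ X| ≤ 2 ^ 0
    simp
  hbe := fun ω _ => by
    show |((0 : ℤ) : ℝ) / 2 ^ X| ≤ 2 ^ 0
    simp
  hN := fun _ _ _ _ _ => rfl
  hth := hθ
  hS := fun _ => by
    show |(0 : ℝ)| ≤ 1
    simp
  hZ := fun ω ω' _ _ _ => by
    show |(((0 : ℤ) : ℝ) - ((0 : ℤ) : ℝ)) - 2 ^ X * ((θ ω' - θ ω) * (((0 : ℤ) : ℝ) / 2 ^ X) -
      ((0 : ℝ) - 0) * (((0 : ℤ) : ℝ) / 2 ^ X) -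
        (0 * θ ω' - 0 * θ ω) * (((0 : ℤ) : ℝ) / 2 ^ X))| ≤ 8
    simp

section

variable {p : Ω → ℝ} {θ : Ω → ℝ} {L : Ω → Λ} {X : ℕ} {ι : ℝ}

theorem df_le (hp : IsLaw p) (hθ : ∀ ω, 0 ≤ θ ω ∧ θ ω < 1)
    (hX : (1 - ι) * X * Real.log 2 ≤ CH p (dg θ X) L) {i : ℕ} (hi : i ≤ X) :
    Pool.OC.TIM.df (toD p θ L X) i ≤ ι * X * Real.log 2 := by
  have h2 := Pool.OC.TIM.df_mono (d := toD p θ L X) hp i (X - i)
  rw [Nat.add_sub_cancel' hi] at h2
  have h3 : Pool.OC.TIM.df (toD p θ L X) X ≤ ι * X * Real.log 2 := by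
    have h4 : (1 - ι) * X * Real.log 2 ≤ Pool.OC.TIM.D (toD p θ L X) X := hX
    unfold Pool.OC.TIM.df
    linarith
  linarith

theorem iota_nonneg (hp : IsLaw p) (hθ : ∀ ω, 0 ≤ θ ω ∧ θ ω < 1)
    (hX : (1 - ι) * X * Real.log 2 ≤ CH p (dg θ X) L) : 0 ≤ ι * X := by
  have h1 := Pool.OC.TIM.df_nonneg (toD_ok hp hθ L X) X
  have h2 := df_le hp hθ hX le_rfl
  have h3 : 0 < Real.log 2 := Real.log_pos (by norm_num)
  have h4 : 0 ≤ (ι * X) * Real.log 2 := by linarith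
  exact nonneg_of_mul_nonneg_left h4 h3

/-- **Coupling.** At most scales the conditional probability of the next digit of the sample is at
least `1 / 3`. -/
theorem cpl_sum (hp : IsLaw p) (hθ : ∀ ω, 0 ≤ θ ω ∧ θ ω < 1)
    (hX : (1 - ι) * X * Real.log 2 ≤ CH p (dg θ X) L) {a b : ℕ} (hab : a ≤ b) (hb : b ≤ X) :
    ∑ i ∈ Finset.Ico a b, Pr p {ω | cp p (dg θ (i + 1)) (fun v => (L v, dg θ i v)) ω < 1 / 3} ≤
      8 * (ι * X) := by
  have h1 : ∀ i ∈ Finset.Ico a b,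
      Pr p {ω | cp p (dg θ (i + 1)) (fun v => (L v, dg θ i v)) ω < 1 / 3} ≤
        11 * (Pool.OC.TIM.df (toD p θ L X) (i + 1) - Pool.OC.TIM.df (toD p θ L X) i) := by
    intro i _
    have h2 := bit hp (dg θ (i + 1)) (fun v => (L v, dg θ i v))
      (fun z => Finset.Ico (2 ^ 1 * z.2) (2 ^ 1 * (z.2 + 1)))
      (fun ω _ => Pool.OC.TIM.floor_mem (θ ω) i 1)
      (fun z => by rw [Pool.OC.TIM.card_blk]; norm_num)
    have h3 : CH p (dg θ (i + 1)) (fun v => (L v, dg θ i v)) =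
        Pool.OC.TIM.D (toD p θ L X) (i + 1) - Pool.OC.TIM.D (toD p θ L X) i :=
      Pool.OC.TIM.CH_pair (d := toD p θ L X) hp.nonneg i 1
    rw [h3] at h2
    refine h2.trans (le_of_eq ?_)
    unfold Pool.OC.TIM.df
    push_cast
    ring
  refine (Finset.sum_le_sum h1).trans ?_
  rw [← Finset.mul_sum, Pool.OC.TIM.tele _ hab]
  have h4 := Pool.OC.TIM.df_nonneg (toD_ok hp hθ L X) a
  have h5 := df_le hp hθ hX hb
  have h6 := iota_nonneg hp hθ hX
  have h7 := Real.log_two_lt_d9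
  nlinarith

/-- **Separation.** At most scales the partners are far. -/
theorem sep_sum (hp : IsLaw p) (hθ : ∀ ω, 0 ≤ θ ω ∧ θ ω < 1)
    (hX : (1 - ι) * X * Real.log 2 ≤ CH p (dg θ X) L) {a b k : ℕ} (hab : a ≤ b)
    (hb : b + k ≤ X) (hk : 0 < k) :
    ∑ i ∈ Finset.Ico a b, Pr (dbl p (fun v => (L v, dg θ i v)))
      {w | |θ w.2 - θ w.1| < (2 : ℝ) ^ (-((i : ℤ) + k))} ≤
        4 * ((b : ℝ) - a) / k + ι * X := by
  have h5 : 0 < Real.log 2 := Real.log_pos (by norm_num)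
  have hk0 : (0 : ℝ) < k := by exact_mod_cast hk
  set g : ℕ → ℝ := fun i => Pr (dbl p (fun v => (L v, dg θ i v)))
      {w | |θ w.2 - θ w.1| < (2 : ℝ) ^ (-((i : ℤ) + k))} with hg
  have hp2 : ∀ i, g i * (k * Real.log 2) ≤ 4 * Real.log 2 +
      (Pool.OC.TIM.df (toD p θ L X) (i + k) - Pool.OC.TIM.df (toD p θ L X) i) := by
    intro i
    have h := Pool.OC.TIM.fano (d := toD p θ L X) hp i k
    have h' : (-((i + k : ℕ) : ℤ)) = (-((i : ℤ) + k)) := by push_cast; ring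
    rw [h'] at h
    exact h
  have h1 : (∑ i ∈ Finset.Ico a b, g i) * (k * Real.log 2) ≤
      4 * Real.log 2 * ((b : ℝ) - a) + k * (ι * X * Real.log 2) := by
    rw [Finset.sum_mul]
    refine (Finset.sum_le_sum fun i _ => hp2 i).trans ?_
    rw [Finset.sum_add_distrib, Finset.sum_const, Nat.card_Ico, nsmul_eq_mul, Nat.cast_sub hab]
    have h2 := Pool.OC.TIM.tele2 (Pool.OC.TIM.df (toD p θ L X)) (F := ι * X * Real.log 2) hab
      (Pool.OC.TIM.df_nonneg (toD_ok hp hθ L X)) k (fun i hi => df_le hp hθ hX (by omega))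
    linarith
  have h2 : (∑ i ∈ Finset.Ico a b, g i) * k ≤ 4 * ((b : ℝ) - a) + k * (ι * X) := by
    have h3 : ((∑ i ∈ Finset.Ico a b, g i) * k) * Real.log 2 ≤
        (4 * ((b : ℝ) - a) + k * (ι * X)) * Real.log 2 := by linarith
    exact le_of_mul_le_mul_right h3 h5
  show ∑ i ∈ Finset.Ico a b, g i ≤ _
  have h3 : 4 * ((b : ℝ) - a) / k + ι * X = (4 * ((b : ℝ) - a) + k * (ι * X)) / k := by
    field_simp
  rw [h3, le_div_iff₀ hk0]
  exact h2

/-- The conditional laws at consecutive scales. -/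
theorem cpl_cond (hp : ∀ ω, 0 ≤ p ω) {i : ℕ} {ω : Ω} (hω : 0 < p ω)
    (h : ¬ cp p (dg θ (i + 1)) (fun v => (L v, dg θ i v)) ω < 1 / 3) (v : Ω) :
    cond p (fun v => (L v, dg θ (i + 1) v)) (L ω, dg θ (i + 1) ω) v ≤
      3 * cond p (fun v => (L v, dg θ i v)) (L ω, dg θ i ω) v := by
  classical
  have h1 := cond_le hp (dg θ (i + 1)) (fun v => (L v, dg θ i v)) (fun v => v) hω
    (show (0 : ℝ) < 1 / 3 by norm_num) (not_lt.1 h) v
  have hl : ∀ q : Ω → ℝ, law q (fun v => v) v = q v := by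
    intro q
    unfold law
    rw [Finset.sum_eq_single v (fun w _ hw => if_neg hw) (fun h => absurd (Finset.mem_univ v) h)]
    exact if_pos rfl
  rw [hl, hl] at h1
  have h2 : cond p (fun v => (dg θ (i + 1) v, (L v, dg θ i v)))
      (dg θ (i + 1) ω, (L ω, dg θ i ω)) =
      cond p (fun v => (L v, dg θ (i + 1) v)) (L ω, dg θ (i + 1) ω) := by
    have h3 : ∀ v : Ω, ((dg θ (i + 1) v, (L v, dg θ i v)) = (dg θ (i + 1) ω, (L ω, dg θ i ω)) ↔
        (L v, dg θ (i + 1) v) = (L ω, dg θ (i + 1) ω)) := by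
      intro v
      have h4 : dg θ i v = dg θ (i + 1) v / 2 ^ 1 := Pool.OC.TIM.floor_pre (θ v) i 1
      have h5 : dg θ i ω = dg θ (i + 1) ω / 2 ^ 1 := Pool.OC.TIM.floor_pre (θ ω) i 1
      simp only [Prod.mk.injEq]
      constructor
      · rintro ⟨h6, h7, _⟩
        exact ⟨h7, h6⟩
      · rintro ⟨h6, h7⟩
        refine ⟨h7, h6, ?_⟩
        rw [h4, h5, h7]
    funext v
    have hl : law p (fun v => (dg θ (i + 1) v, (L v, dg θ i v)))
        (dg θ (i + 1) ω, (L ω, dg θ i ω)) =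
        law p (fun v => (L v, dg θ (i + 1) v)) (L ω, dg θ (i + 1) ω) := by
      unfold law
      refine Finset.sum_congr rfl fun v _ => ?_
      by_cases h : (L v, dg θ (i + 1) v) = (L ω, dg θ (i + 1) ω)
      · rw [if_pos h, if_pos ((h3 v).2 h)]
      · rw [if_neg h, if_neg fun h' => h ((h3 v).1 h')]
    unfold Pool.Agent.H49.Ent.cond
    rw [hl]
    by_cases h : (L v, dg θ (i + 1) v) = (L ω, dg θ (i + 1) ω)
    · rw [if_pos h, if_pos ((h3 v).2 h)]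
    · rw [if_neg h, if_neg fun h' => h ((h3 v).1 h')]
  rw [h2] at h1
  refine h1.trans (le_of_eq ?_)
  norm_num

end

end Pool.Coup
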